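import Pool.Agent.Helper32.KD2.Basic

/-! KD2-C1: rounding towards zero -/

namespace KD.II.C1
open Finset MeasureTheory

theorem trz_nonneg {x : ℝ} (hx : 0 ≤ x) : trz x = ⌊x⌋ := by
  unfold trz; rw [if_pos hx]

theorem trz_nonpos {x : ℝ} (hx : x ≤ 0) : trz x = ⌈x⌉ := by
  unfold trz
  split_ifs with h
  · have h0 : x = 0 := le_antisymm hx h
    subst h0
    simp
  · rfl

theorem trz_neg (x : ℝ) : trz (-x) = -trz x := by
  rcases le_total 0 x with h | h
  · rw [trz_nonneg h, trz_nonpos (by linarith), Int.ceil_neg]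
  · rw [trz_nonpos h, trz_nonneg (by linarith), Int.floor_neg]

theorem trz_tdiv_nonneg {x : ℝ} (hx : 0 ≤ x) (m : ℕ) :
    trz (x / 2 ^ m) = (trz x).tdiv (2 ^ m) := by
  have h2 : (0 : ℝ) < 2 ^ m := by positivity
  rw [trz_nonneg hx, trz_nonneg (div_nonneg hx h2.le)]
  have hf : 0 ≤ ⌊x⌋ := Int.floor_nonneg.2 hx
  rw [Int.tdiv_eq_ediv_of_nonneg hf]
  have := Int.floor_div_natCast x (2 ^ m)
  push_cast at this
  exact this

theorem trz_tdiv (x : ℝ) (m : ℕ) : trz (x / 2 ^ m) = (trz x).tdiv (2 ^ m) := by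
  rcases le_total 0 x with h | h
  · exact trz_tdiv_nonneg h m
  · have h1 := trz_tdiv_nonneg (x := -x) (by linarith) m
    rw [neg_div, trz_neg, trz_neg, Int.neg_tdiv] at h1
    exact neg_injective h1

theorem abs_trz_le (x : ℝ) : |(trz x : ℝ)| ≤ |x| := by
  rcases le_total 0 x with h | h
  · rw [trz_nonneg h, abs_of_nonneg h, abs_of_nonneg (by exact_mod_cast Int.floor_nonneg.2 h)]
    exact Int.floor_le x
  · rw [trz_nonpos h, abs_of_nonpos h, abs_of_nonpos (by exact_mod_cast Int.ceil_nonpos.2 h)]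
    linarith [Int.le_ceil x]

theorem abs_sub_trz_lt (x : ℝ) : |x - trz x| < 1 := by
  rcases le_total 0 x with h | h
  · rw [trz_nonneg h, abs_lt]
    constructor <;> linarith [Int.floor_le x, Int.lt_floor_add_one x]
  · rw [trz_nonpos h, abs_lt]
    constructor <;> linarith [Int.le_ceil x, Int.ceil_lt_add_one x]

theorem abs_sub_trz_le (x : ℝ) : |x - trz x| ≤ |x| := by
  rcases le_total 0 x with h | h
  · have h0 : (0 : ℝ) ≤ ⌊x⌋ := by exact_mod_cast Int.floor_nonneg.2 h
    rw [trz_nonneg h, abs_of_nonneg h, abs_of_nonneg (by linarith [Int.floor_le x])]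
    linarith
  · have h0 : (⌈x⌉ : ℝ) ≤ 0 := by exact_mod_cast Int.ceil_nonpos.2 h
    rw [trz_nonpos h, abs_of_nonpos h, abs_of_nonpos (by linarith [Int.le_ceil x])]
    linarith

theorem le_abs_trz (n : ℕ) (x : ℝ) : (n : ℤ) ≤ |trz x| ↔ (n : ℝ) ≤ |x| := by
  rcases le_total 0 x with h | h
  · rw [trz_nonneg h, abs_of_nonneg h, abs_of_nonneg (Int.floor_nonneg.2 h), Int.le_floor]
    push_cast
    rfl
  · rw [trz_nonpos h, abs_of_nonpos h, abs_of_nonpos (Int.ceil_nonpos.2 h), ← Int.floor_neg,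
      Int.le_floor]
    push_cast
    rfl

/-- the fibre of `trz` over `k` contains a closed interval of length one up to its end point -/
theorem trz_fibre (k : ℤ) : ∃ c : ℝ, ∀ x : ℝ, c < x → x < c + 1 → trz x = k := by
  rcases le_or_gt 0 k with hk | hk
  · refine ⟨k, fun x h1 h2 => ?_⟩
    have hk' : (0 : ℝ) ≤ k := by exact_mod_cast hk
    rw [trz_nonneg (by linarith), Int.floor_eq_iff]
    exact ⟨h1.le, h2⟩
  · refine ⟨k - 1, fun x h1 h2 => ?_⟩
    have hk' : (k : ℝ) < 0 := by exact_mod_cast hk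
    rw [trz_nonpos (by linarith), Int.ceil_eq_iff]
    exact ⟨h1, by linarith⟩

theorem trz_measurable : Measurable trz := by
  unfold trz
  exact Measurable.ite (measurableSet_le measurable_const measurable_id) Int.measurable_floor
    Int.measurable_ceil

end KD.II.C1
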